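import Mathlib
import Pool.Agent.Y298.EX.All
import Pool.Agent.Y272.GA.Brg
import Pool.Agent.Y298.CA.ScaAll

/-!
# Exact scaling in the space of all polynomials near `z ^ d + c₀`
-/

set_option autoImplicit false

open Set Filter Metric MeasureTheory Topology

namespace Pool.Agent.Q186.Pol

open Pool.Agent.Y272.GA (NE ee FF dF)
open Pool.Agent.Y298.EX (OS CN)
open Pool.Agent.Y298.CA (Lyap lim_of ev_const)

variable {d : ℕ} {c₀ : ℂ}

theorem ev_pos : ∀ᶠ r : ℝ in 𝓝[>] 0, 0 < r := self_mem_nhdsWithin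

theorem ev_lt {a : ℝ} (ha : 0 < a) : ∀ᶠ r : ℝ in 𝓝[>] 0, r < a :=
  mem_nhdsWithin_of_mem_nhds (gt_mem_nhds ha)

theorem vol_cb (b : Fin (d + 1) → ℂ) {r : ℝ} (hr : 0 ≤ r) :
    volume (closedBall b r) = ENNReal.ofReal ((Real.pi * r ^ 2) ^ (d + 1)) := by
  rw [MeasureTheory.volume_pi_closedBall _ hr]
  simp only [Complex.volume_closedBall, Finset.prod_const, Finset.card_univ, Fintype.card_fin]
  rw [ENNReal.ofReal_pow (by positivity), ENNReal.ofReal_mul Real.pi_pos.le,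
    ENNReal.ofReal_pow hr, mul_comm (ENNReal.ofReal Real.pi)]
  congr 2
  rw [← NNReal.coe_real_pi, ENNReal.ofReal_coe_nnreal]

/-- **Volume, upper bound.** -/
theorem vol_up (hd : 2 ≤ d) {χ : ℝ} (h : Lyap d χ c₀) (hne : d = 2 → c₀ ≠ -2) {ε : ℝ}
    (hε : 0 < ε) : ∀ᶠ r : ℝ in 𝓝[>] 0,
      volume (NE d ∩ closedBall (ee d c₀) r) ≤
        ENNReal.ofReal (r ^ (2 * ((d : ℝ) + 1) + 2 / ((d : ℝ) - 1) - ε)) := by
  have hdR : (2 : ℝ) ≤ d := by exact_mod_cast hd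
  have hd1 : 0 < (d : ℝ) - 1 := by linarith
  have hpi := Real.pi_pos
  obtain ⟨E, hE⟩ : ∃ E : ℝ, E = max 0 (2 / ((d : ℝ) - 1) - ε / 2) := ⟨_, rfl⟩
  have hE0 : 0 ≤ E := by rw [hE]; exact le_max_left _ _
  have hE1 : 2 / ((d : ℝ) - 1) - ε / 2 ≤ E := by rw [hE]; exact le_max_right _ _
  have hE2 : E < 2 / ((d : ℝ) - 1) := by
    rw [hE]
    exact max_lt (by positivity) (by linarith)
  have h2 : 2 * (d : ℝ) / ((d : ℝ) - 1) = 2 + 2 / ((d : ℝ) - 1) := by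
    field_simp
    ring
  have hA := Pool.Agent.Y272.GA.ar_lyap hd h (E := 2 + E) (by linarith) (by rw [h2]; linarith)
  obtain ⟨C, δ, hC, hδ, H⟩ := Pool.Agent.Y272.GA.vol_all Pool.Agent.Y574.GA.t hd
    (Pool.Agent.Y272.GA.norm_lt_two hd h.2.1 hne) hA
  filter_upwards [ev_pos, ev_lt hδ, ev_lt one_pos,
    ev_const (C := C * Real.pi ^ (d + 1)) (half_pos hε)] with r hr0 hrδ hr1 hrC
  refine (H r hr0 hrδ.le).trans ?_
  rw [vol_cb _ hr0.le, ← ENNReal.ofReal_mul (by positivity)]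
  apply ENNReal.ofReal_le_ofReal
  have e1 : (Real.pi * r ^ 2) ^ (d + 1) = Real.pi ^ (d + 1) * r ^ (2 * ((d : ℝ) + 1)) := by
    rw [mul_pow, ← pow_mul]
    congr 1
    rw [← Real.rpow_natCast]
    push_cast
    rfl
  rw [e1]
  have e2 : r ^ E ≤ r ^ (2 / ((d : ℝ) - 1) - ε / 2) :=
    Real.rpow_le_rpow_of_exponent_ge hr0 hr1.le hE1
  have e3 : r ^ (2 / ((d : ℝ) - 1) - ε / 2) * r ^ (2 * ((d : ℝ) + 1)) =
      r ^ (ε / 2) * r ^ (2 * ((d : ℝ) + 1) + 2 / ((d : ℝ) - 1) - ε) := by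
    rw [← Real.rpow_add hr0, ← Real.rpow_add hr0]
    congr 1
    ring
  calc C * r ^ E * (Real.pi ^ (d + 1) * r ^ (2 * ((d : ℝ) + 1)))
      ≤ C * r ^ (2 / ((d : ℝ) - 1) - ε / 2) * (Real.pi ^ (d + 1) * r ^ (2 * ((d : ℝ) + 1))) := by
        gcongr
    _ = C * Real.pi ^ (d + 1) * (r ^ (2 / ((d : ℝ) - 1) - ε / 2) * r ^ (2 * ((d : ℝ) + 1))) := by
        ring
    _ = C * Real.pi ^ (d + 1) * r ^ (ε / 2) *
          r ^ (2 * ((d : ℝ) + 1) + 2 / ((d : ℝ) - 1) - ε) := by rw [e3]; ring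
    _ ≤ 1 * r ^ (2 * ((d : ℝ) + 1) + 2 / ((d : ℝ) - 1) - ε) := by gcongr
    _ = _ := one_mul _

/-- **Balls, upper bound.** -/
theorem ball_up (hd : 2 ≤ d) {χ : ℝ} (h : Lyap d χ c₀) (hne : d = 2 → c₀ ≠ -2) {ε : ℝ}
    (hε : 0 < ε) : ∀ᶠ r : ℝ in 𝓝[>] 0, ∀ (b : Fin (d + 1) → ℂ) (ρ : ℝ), 0 < ρ →
      ball b ρ ⊆ NE d ∩ closedBall (ee d c₀) r → ρ ≤ r ^ ((d : ℝ) / ((d : ℝ) - 1) - ε) := by
  have hdR : (2 : ℝ) ≤ d := by exact_mod_cast hd
  have hd1 : 0 < (d : ℝ) - 1 := by linarith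
  have hI : (d : ℝ) / ((d : ℝ) - 1) = 1 + 1 / ((d : ℝ) - 1) := by
    field_simp
    ring
  have hi : 0 < 1 / ((d : ℝ) - 1) := by positivity
  obtain ⟨σ, hσ⟩ : ∃ σ : ℝ, σ = max 1 ((d : ℝ) / ((d : ℝ) - 1) - ε) := ⟨_, rfl⟩
  have hσ1 : 1 ≤ σ := by rw [hσ]; exact le_max_left _ _
  have hσ2 : (d : ℝ) / ((d : ℝ) - 1) - ε ≤ σ := by rw [hσ]; exact le_max_right _ _
  have hσ3 : σ < (d : ℝ) / ((d : ℝ) - 1) := by
    rw [hσ]
    exact max_lt (by rw [hI]; linarith) (by linarith)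
  obtain ⟨E, hE1, hE2⟩ := exists_between (show 2 * σ < 2 * (d : ℝ) / ((d : ℝ) - 1) by
    rw [mul_div_assoc]; linarith)
  have hA := Pool.Agent.Y272.GA.ar_lyap hd h (E := E) (by linarith) hE2
  obtain ⟨δ, hδ, H⟩ := Pool.Agent.Y272.GA.sigma_all hd
    (Pool.Agent.Y272.GA.norm_lt_two hd h.2.1 hne) hσ1 hE1 hA
  filter_upwards [ev_pos, ev_lt hδ, ev_lt one_pos] with r hr0 hrδ hr1
  intro b ρ hρ hb
  have h1 := (hb (mem_ball_self hρ)).2
  rw [mem_closedBall, dist_eq_norm] at h1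
  obtain ⟨t, ht1, ht2⟩ := H r hr0 hrδ.le b h1
  have h3 : r ^ σ ≤ r ^ ((d : ℝ) / ((d : ℝ) - 1) - ε) :=
    Real.rpow_le_rpow_of_exponent_ge hr0 hr1.le hσ2
  by_contra hcon
  rw [not_le] at hcon
  apply ht2
  refine (hb ?_).1
  rw [mem_ball, dist_eq_norm, add_sub_cancel_left, Pi.norm_single]
  linarith

/-- the inradius of a set of coefficient vectors -/
noncomputable def inr (S : Set (Fin (d + 1) → ℂ)) : ℝ :=
  sSup {ρ : ℝ | 0 ≤ ρ ∧ ∃ b : Fin (d + 1) → ℂ, ball b ρ ⊆ S}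

theorem inr_bdd {S : Set (Fin (d + 1) → ℂ)} {e : Fin (d + 1) → ℂ} {R : ℝ} (hR : 0 ≤ R)
    (hS : S ⊆ closedBall e R) :
    BddAbove {ρ : ℝ | 0 ≤ ρ ∧ ∃ b : Fin (d + 1) → ℂ, ball b ρ ⊆ S} := by
  refine ⟨R, ?_⟩
  rintro x ⟨hx0, b, hx⟩
  by_contra hcon
  rw [not_le] at hcon
  obtain ⟨s, hs1, hs2⟩ := exists_between hcon
  have hs0 : 0 ≤ s := hR.trans hs1.le
  have h1 : b + Pi.single 0 (s : ℂ) ∈ closedBall e R := by
    apply hS
    apply hx
    rw [mem_ball, dist_eq_norm, add_sub_cancel_left, Pi.norm_single, Complex.norm_real,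
      Real.norm_of_nonneg hs0]
    exact hs2
  have h2 : b - Pi.single 0 (s : ℂ) ∈ closedBall e R := by
    apply hS
    apply hx
    rw [mem_ball, dist_eq_norm, sub_sub_cancel_left, norm_neg, Pi.norm_single, Complex.norm_real,
      Real.norm_of_nonneg hs0]
    exact hs2
  rw [mem_closedBall, dist_eq_norm] at h1 h2
  have g1 := (norm_le_pi_norm _ (0 : Fin (d + 1))).trans h1
  have g2 := (norm_le_pi_norm _ (0 : Fin (d + 1))).trans h2
  simp only [Pi.sub_apply, Pi.add_apply, Pi.single_eq_same] at g1 g2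
  have h3 : ‖((2 * s : ℝ) : ℂ)‖ ≤ R + R := by
    calc ‖((2 * s : ℝ) : ℂ)‖ = ‖(b 0 + (s : ℂ) - e 0) - (b 0 - (s : ℂ) - e 0)‖ := by
          congr 1
          push_cast
          ring
      _ ≤ _ := (norm_sub_le _ _).trans (add_le_add g1 g2)
  rw [Complex.norm_real, Real.norm_of_nonneg (by linarith)] at h3
  linarith

theorem le_inr {S : Set (Fin (d + 1) → ℂ)} {e : Fin (d + 1) → ℂ} {R : ℝ} (hR : 0 ≤ R)
    (hS : S ⊆ closedBall e R) {b : Fin (d + 1) → ℂ} {ρ : ℝ} (hρ : 0 ≤ ρ) (h : ball b ρ ⊆ S) :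
    ρ ≤ inr S :=
  le_csSup (inr_bdd hR hS) ⟨hρ, b, h⟩

theorem inr_le {S : Set (Fin (d + 1) → ℂ)} {B : ℝ} (hB : 0 ≤ B)
    (h : ∀ (b : Fin (d + 1) → ℂ) (ρ : ℝ), 0 < ρ → ball b ρ ⊆ S → ρ ≤ B) : inr S ≤ B := by
  apply csSup_le
  · exact ⟨0, le_rfl, 0, by simp⟩
  · rintro x ⟨hx0, b, hx⟩
    rcases hx0.eq_or_lt with h0 | h0
    · rw [← h0]
      exact hB
    · exact h b x h0 hx

/-- **Exact scaling** of every set between `OS` and `NE`. -/
theorem scal_of (hd : 2 ≤ d) {χ : ℝ} (h : Lyap d χ c₀) (hne : d = 2 → c₀ ≠ -2)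
    {S : Set (Fin (d + 1) → ℂ)}
    (hO : ∀ᶠ r : ℝ in 𝓝[>] 0, OS d ∩ closedBall (ee d c₀) r ⊆ S)
    (hN : ∀ᶠ r : ℝ in 𝓝[>] 0, S ∩ closedBall (ee d c₀) r ⊆ NE d) :
    Tendsto (fun r : ℝ => Real.log (volume (S ∩ closedBall (ee d c₀) r)).toReal / Real.log r)
      (𝓝[>] 0) (𝓝 (2 * ((d : ℝ) + 1) + 2 / ((d : ℝ) - 1))) ∧
    Tendsto (fun r : ℝ => Real.log (inr (S ∩ closedBall (ee d c₀) r)) / Real.log r)
      (𝓝[>] 0) (𝓝 ((d : ℝ) / ((d : ℝ) - 1))) := by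
  have hfin : ∀ r : ℝ, volume (S ∩ closedBall (ee d c₀) r) ≠ ⊤ := fun r =>
    ne_top_of_le_ne_top measure_closedBall_lt_top.ne (measure_mono inter_subset_right)
  constructor
  · apply lim_of
    · intro ε hε
      filter_upwards [ev_pos, Pool.Agent.Y298.EX.low_fin_all hd h hε, hO] with r hr0 hr hO
      have h1 := hr.1.trans (measure_mono (subset_inter hO inter_subset_right))
      rw [← ENNReal.ofReal_le_iff_le_toReal (hfin r)]
      exact h1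
    · intro ε hε
      filter_upwards [ev_pos, vol_up hd h hne hε, hN] with r hr0 hr hN
      apply ENNReal.toReal_le_of_le_ofReal (by positivity)
      refine (measure_mono ?_).trans hr
      exact subset_inter hN inter_subset_right
  · apply lim_of
    · intro ε hε
      filter_upwards [ev_pos, Pool.Agent.Y298.EX.low_fin_all hd h hε, hO] with r hr0 hr hO
      obtain ⟨b, hb⟩ := hr.2
      exact le_inr hr0.le inter_subset_right (by positivity)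
        (hb.trans (subset_inter hO inter_subset_right))
    · intro ε hε
      filter_upwards [ev_pos, ball_up hd h hne hε, hN] with r hr0 hr hN
      apply inr_le (by positivity)
      intro b ρ hρ hb
      exact hr b ρ hρ (hb.trans (subset_inter hN inter_subset_right))

/-- the connectedness locus lies in the set of the polynomials with a non-escaping critical point -/
theorem cn_sub_ne (hd : 2 ≤ d) : ∀ᶠ r : ℝ in 𝓝[>] 0, CN d ∩ closedBall (ee d c₀) r ⊆ NE d := by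
  have h1 : ∀ᶠ r : ℝ in 𝓝[>] 0, Pool.Agent.Y298.EX.K8 d * r < 1 := by
    have h2 : Tendsto (fun r : ℝ => Pool.Agent.Y298.EX.K8 d * r) (𝓝[>] 0) (𝓝 0) := by
      have h3 : Tendsto (fun r : ℝ => Pool.Agent.Y298.EX.K8 d * r) (𝓝 0)
          (𝓝 (Pool.Agent.Y298.EX.K8 d * 0)) := (continuous_const.mul continuous_id).tendsto 0
      rw [mul_zero] at h3
      exact h3.mono_left nhdsWithin_le_nhds
    exact h2.eventually (gt_mem_nhds one_pos)
  filter_upwards [h1] with r hr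
  rintro b ⟨hb, hbr⟩
  rw [mem_closedBall, dist_eq_norm] at hbr
  obtain ⟨κ, hκ⟩ := Pool.Agent.Y298.EX.exists_crit hd hbr hr
  exact ⟨κ, hκ, hb κ hκ⟩

end Pool.Agent.Q186.Pol
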